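import Pool.Agent.BEL.StmtsE
import Pool.Agent.Helper33_BEL.GRP

/-!
Squad BEL, row RIN (helper39): existence of `Λ⁻¹`.
-/

namespace Pool.Agent.BEL.H39

open MeasureTheory Filter Topology Set
open scoped InnerProductSpace ENNReal

theorem rin : RinStmt := by
  intro H _ _ _ κ b om hw
  obtain ⟨w0, hw0, hom⟩ := hw
  obtain ⟨R, hR⟩ := H33.exists_diag b (fun j => 1 / om j) (1 / w0) (fun j => by
    have h1 : 0 < om j := lt_of_lt_of_le hw0 (hom j)
    rw [abs_of_pos (by positivity)]
    exact one_div_le_one_div_of_le hw0 (hom j))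
  refine ⟨R, fun z j => ?_⟩
  rw [hR]
  ring

end Pool.Agent.BEL.H39
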