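import Pool.Agent.BEL.StmtsE
import Pool.Agent.Helper33_BEL.GRP

/-!
Squad BEL, row GRQ (helper39): properties of the free group.
-/

namespace Pool.Agent.BEL.H39

open MeasureTheory Filter Topology Set
open scoped InnerProductSpace ENNReal

section
variable {H : Type} [NormedAddCommGroup H] [InnerProductSpace ℝ H] {κ : Type}

theorem kk_ext {z w : KK H} (h1 : P1 z = P1 w) (h2 : P2 z = P2 w) : z = w := by
  apply (WithLp.prodContinuousLinearEquiv 2 ℝ H H).injective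
  exact Prod.ext h1 h2

theorem kk_inner (z w : KK H) : ⟪z, w⟫_ℝ = ⟪P1 z, P1 w⟫_ℝ + ⟪P2 z, P2 w⟫_ℝ := rfl

theorem kk_sum (b : HilbertBasis κ ℝ H) (z w : KK H) :
    HasSum (fun j => ⟪b j, P1 z⟫_ℝ * ⟪b j, P1 w⟫_ℝ + ⟪b j, P2 z⟫_ℝ * ⟪b j, P2 w⟫_ℝ) ⟪z, w⟫_ℝ := by
  rw [kk_inner]
  have h1 := b.hasSum_inner_mul_inner (P1 z) (P1 w)
  have h2 := b.hasSum_inner_mul_inner (P2 z) (P2 w)
  have h3 := h1.add h2
  have h4 : (fun j => ⟪P1 z, b j⟫_ℝ * ⟪b j, P1 w⟫_ℝ + ⟪P2 z, b j⟫_ℝ * ⟪b j, P2 w⟫_ℝ) =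
      fun j => ⟪b j, P1 z⟫_ℝ * ⟪b j, P1 w⟫_ℝ + ⟪b j, P2 z⟫_ℝ * ⟪b j, P2 w⟫_ℝ := by
    funext j
    rw [real_inner_comm (b j) (P1 z), real_inner_comm (b j) (P2 z)]
  rw [← h4]
  exact h3

theorem kk_eq (b : HilbertBasis κ ℝ H) {z w : KK H} (h1 : ∀ j, ⟪b j, P1 z⟫_ℝ = ⟪b j, P1 w⟫_ℝ)
    (h2 : ∀ j, ⟪b j, P2 z⟫_ℝ = ⟪b j, P2 w⟫_ℝ) : z = w :=
  kk_ext (H33.eq_of_inner b h1) (H33.eq_of_inner b h2)

end

theorem grq : GrqStmt := by
  intro H _ _ _ κ b om W hW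
  have h0 : ∀ z : KK H, W 0 z = z := by
    intro z
    refine kk_eq b (fun j => ?_) (fun j => ?_)
    · rw [hW.c1, mul_zero, Real.cos_zero, Real.sin_zero]
      ring
    · rw [hW.c2, mul_zero, Real.cos_zero, Real.sin_zero]
      ring
  have hadd : ∀ (s t : ℝ) (z : KK H), W (s + t) z = W s (W t z) := by
    intro s t z
    refine kk_eq b (fun j => ?_) (fun j => ?_)
    · rw [hW.c1, hW.c1, hW.c1, hW.c2, mul_add, Real.cos_add, Real.sin_add]
      ring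
    · rw [hW.c2, hW.c2, hW.c1, hW.c2, mul_add, Real.cos_add, Real.sin_add]
      ring
  have hadj : ∀ (t : ℝ) (z w : KK H), ⟪W t z, w⟫_ℝ = ⟪z, W (-t) w⟫_ℝ := by
    intro t z w
    have h1 := kk_sum b (W t z) w
    have h2 := kk_sum b z (W (-t) w)
    refine h1.unique ?_
    have h3 : (fun j => ⟪b j, P1 (W t z)⟫_ℝ * ⟪b j, P1 w⟫_ℝ +
        ⟪b j, P2 (W t z)⟫_ℝ * ⟪b j, P2 w⟫_ℝ) = fun j => ⟪b j, P1 z⟫_ℝ * ⟪b j, P1 (W (-t) w)⟫_ℝ +
        ⟪b j, P2 z⟫_ℝ * ⟪b j, P2 (W (-t) w)⟫_ℝ := by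
      funext j
      rw [hW.c1, hW.c2, hW.c1, hW.c2, mul_neg, Real.cos_neg, Real.sin_neg]
      ring
    rw [h3]
    exact h2
  have hnorm : ∀ (t : ℝ) (z : KK H), ‖W t z‖ = ‖z‖ := by
    intro t z
    have h1 : ‖W t z‖ ^ 2 = ‖z‖ ^ 2 := by
      rw [← real_inner_self_eq_norm_sq, ← real_inner_self_eq_norm_sq, hadj, ← hadd,
        neg_add_cancel, h0]
    exact (pow_left_inj₀ (norm_nonneg _) (norm_nonneg _) two_ne_zero).1 h1
  -- continuity at zero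
  have hz : ∀ z : KK H, Tendsto (fun h : ℝ => ‖W h z - z‖) (𝓝 0) (𝓝 0) := by
    intro z
    have hs : ∀ h : ℝ, ‖W h z - z‖ ^ 2 = ∑' j,
        (((Real.cos (om j * h) - 1) * ⟪b j, P1 z⟫_ℝ + Real.sin (om j * h) * ⟪b j, P2 z⟫_ℝ) ^ 2 +
        (-Real.sin (om j * h) * ⟪b j, P1 z⟫_ℝ + (Real.cos (om j * h) - 1) * ⟪b j, P2 z⟫_ℝ) ^ 2) := by
      intro h
      rw [← real_inner_self_eq_norm_sq, ← (kk_sum b (W h z - z) (W h z - z)).tsum_eq]
      refine tsum_congr fun j => ?_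
      rw [map_sub, map_sub, inner_sub_right, inner_sub_right, hW.c1, hW.c2]
      ring
    have hb : Summable fun j => 8 * (⟪b j, P1 z⟫_ℝ * ⟪b j, P1 z⟫_ℝ + ⟪b j, P2 z⟫_ℝ * ⟪b j, P2 z⟫_ℝ) :=
      (kk_sum b z z).summable.mul_left 8
    have h1 : Tendsto (fun h : ℝ => ‖W h z - z‖ ^ 2) (𝓝 0) (𝓝 (∑' j : κ, (0 : ℝ))) := by
      have h2 := tendsto_tsum_of_dominated_convergence (𝓕 := 𝓝 (0 : ℝ)) (f := fun (h : ℝ) (j : κ) =>
        (((Real.cos (om j * h) - 1) * ⟪b j, P1 z⟫_ℝ + Real.sin (om j * h) * ⟪b j, P2 z⟫_ℝ) ^ 2 +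
        (-Real.sin (om j * h) * ⟪b j, P1 z⟫_ℝ + (Real.cos (om j * h) - 1) * ⟪b j, P2 z⟫_ℝ) ^ 2))
        (g := fun _ => (0 : ℝ)) hb ?_ ?_
      · simp only [hs]
        exact h2
      · intro j
        have h3 : Continuous fun h : ℝ =>
          (((Real.cos (om j * h) - 1) * ⟪b j, P1 z⟫_ℝ + Real.sin (om j * h) * ⟪b j, P2 z⟫_ℝ) ^ 2 +
          (-Real.sin (om j * h) * ⟪b j, P1 z⟫_ℝ +
            (Real.cos (om j * h) - 1) * ⟪b j, P2 z⟫_ℝ) ^ 2) := by fun_prop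
        have h4 := h3.tendsto 0
        simp only [mul_zero, Real.cos_zero, Real.sin_zero, sub_self, zero_mul, neg_zero, add_zero,
          ne_eq, OfNat.ofNat_ne_zero, not_false_eq_true, zero_pow] at h4
        exact h4
      · refine Eventually.of_forall fun h j => ?_
        obtain ⟨c, hc⟩ : ∃ c, c = Real.cos (om j * h) := ⟨_, rfl⟩
        obtain ⟨s, hs'⟩ : ∃ s, s = Real.sin (om j * h) := ⟨_, rfl⟩
        obtain ⟨p, hp⟩ : ∃ p, p = ⟪b j, P1 z⟫_ℝ := ⟨_, rfl⟩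
        obtain ⟨v, hv⟩ : ∃ v, v = ⟪b j, P2 z⟫_ℝ := ⟨_, rfl⟩
        rw [← hc, ← hs', ← hp, ← hv, Real.norm_eq_abs,
          abs_of_nonneg (add_nonneg (sq_nonneg _) (sq_nonneg _))]
        have hcs : s ^ 2 + c ^ 2 = 1 := by
          rw [hc, hs']
          exact Real.sin_sq_add_cos_sq _
        have hc1 : -1 ≤ c := by
          rw [hc]
          exact Real.neg_one_le_cos _
        have h5 : ((c - 1) * p + s * v) ^ 2 + (-s * p + (c - 1) * v) ^ 2 =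
            (s ^ 2 + c ^ 2 + 1 - 2 * c) * (p * p + v * v) := by ring
        rw [h5, hcs]
        have h6 : 0 ≤ p * p + v * v := add_nonneg (mul_self_nonneg p) (mul_self_nonneg v)
        nlinarith
    rw [tsum_zero] at h1
    have h7 := (Real.continuous_sqrt.tendsto 0).comp h1
    rw [Real.sqrt_zero] at h7
    refine h7.congr fun h => ?_
    show Real.sqrt (‖W h z - z‖ ^ 2) = _
    exact Real.sqrt_sq (norm_nonneg _)
  have hcz : ∀ (z : KK H) (t : ℝ), Tendsto (fun s : ℝ => ‖W s z - W t z‖) (𝓝 t) (𝓝 0) := by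
    intro z t
    have h1 : Tendsto (fun s : ℝ => s - t) (𝓝 t) (𝓝 0) := by
      have h2 : Continuous fun s : ℝ => s - t := by fun_prop
      have h3 := h2.tendsto t
      rwa [sub_self] at h3
    refine ((hz z).comp h1).congr fun s => ?_
    show ‖W (s - t) z - z‖ = _
    rw [← hnorm t (W (s - t) z - z), map_sub, ← hadd, add_sub_cancel]
  have hcont : ∀ z : KK H, Continuous fun t => W t z := by
    intro z
    rw [continuous_iff_continuousAt]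
    intro t
    exact tendsto_iff_norm_sub_tendsto_zero.2 (hcz z t)
  have hinj : ∀ (h : H) (z : KK H), ⟪inj h, z⟫_ℝ = ⟪h, P2 z⟫_ℝ := by
    intro h z
    rw [kk_inner]
    have h1 : P1 (inj h) = 0 := rfl
    have h2 : P2 (inj h) = h := rfl
    rw [h1, h2, inner_zero_left, zero_add]
  refine ⟨h0, hadd, hnorm, hadj, hcont, ?_, hinj, ?_⟩
  · intro Z hZ
    rw [continuous_iff_continuousAt]
    intro t
    refine tendsto_iff_norm_sub_tendsto_zero.2 ?_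
    have h1 : Tendsto (fun s => ‖Z s - Z t‖ + ‖W s (Z t) - W t (Z t)‖) (𝓝 t) (𝓝 0) := by
      have h2 := (tendsto_iff_norm_sub_tendsto_zero.1 (hZ.tendsto t)).add (hcz (Z t) t)
      rwa [add_zero] at h2
    refine squeeze_zero (fun s => norm_nonneg _) (fun s => ?_) h1
    have h3 : W s (Z s) - W t (Z t) = W s (Z s - Z t) + (W s (Z t) - W t (Z t)) := by
      rw [map_sub]
      abel
    rw [h3]
    refine (norm_add_le _ _).trans ?_
    rw [hnorm]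
  · intro h
    have h1 : ‖inj h‖ ^ 2 = ‖h‖ ^ 2 := by
      rw [← real_inner_self_eq_norm_sq, ← real_inner_self_eq_norm_sq, hinj]
      rfl
    exact (pow_left_inj₀ (norm_nonneg _) (norm_nonneg _) two_ne_zero).1 h1

end Pool.Agent.BEL.H39
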