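import Pool.Agent.BEL.StmtsC

/-!
Squad BEL, row CTJ (helper39): continuity in time of integrals of bounded continuous functions.
-/

namespace Pool.Agent.BEL.H39

open MeasureTheory Filter Topology Set
open scoped InnerProductSpace ENNReal

/-- a subsequence converges almost everywhere -/
theorem sub_ae {X : Type} [MeasurableSpace X] {μ : Measure X} {w : ℕ → Lp ℝ 2 μ} {w0 : Lp ℝ 2 μ}
    (h : Tendsto w atTop (𝓝 w0)) :
    ∃ ns : ℕ → ℕ, StrictMono ns ∧ ∀ᵐ x ∂μ, Tendsto (fun i => w (ns i) x) atTop (𝓝 (w0 x)) :=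
  (tendstoInMeasure_of_tendsto_Lp h).exists_seq_tendsto_ae

theorem ctj : CtjStmt := by
  intro X _ μ _ F C hF hC w v hw hv
  rw [continuous_iff_continuousAt]
  intro t
  have hm : ∀ s, AEStronglyMeasurable (fun x => F (w s x) (v s x)) μ := fun s =>
    hF.comp_aestronglyMeasurable ((Lp.aestronglyMeasurable (w s)).prodMk
      (Lp.aestronglyMeasurable (v s)))
  refine tendsto_of_seq_tendsto fun u hu => ?_
  refine tendsto_of_subseq_tendsto fun ns hns => ?_
  have h1 : Tendsto (fun n => w (u (ns n))) atTop (𝓝 (w t)) := (hw.tendsto t).comp (hu.comp hns)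
  obtain ⟨a, ha, ha2⟩ := sub_ae h1
  have h2 : Tendsto (fun n => v (u (ns (a n)))) atTop (𝓝 (v t)) :=
    (hv.tendsto t).comp (hu.comp (hns.comp ha.tendsto_atTop))
  obtain ⟨c, hc, hc2⟩ := sub_ae h2
  refine ⟨fun n => a (c n), ?_⟩
  refine tendsto_integral_of_dominated_convergence (fun _ => C) (fun n => hm _)
    (integrable_const C) (fun n => Eventually.of_forall fun x => ?_) ?_
  · rw [Real.norm_eq_abs]
    exact hC _ _
  · filter_upwards [ha2, hc2] with x hx1 hx2
    have h3 : Tendsto (fun n => (w (u (ns (a (c n)))) x, v (u (ns (a (c n)))) x)) atTop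
        (𝓝 (w t x, v t x)) := by
      rw [nhds_prod_eq]
      exact (hx1.comp hc.tendsto_atTop).prodMk hx2
    exact (hF.tendsto (w t x, v t x)).comp h3

end Pool.Agent.BEL.H39
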