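import Pool.Agent.BEL.StmtsD

/-!
Squad BEL, row PRX (helper39): existence of the parameter `m`.
-/

namespace Pool.Agent.BEL.H39

open MeasureTheory Filter Topology Set
open scoped InnerProductSpace ENNReal

theorem two_pow_neg_le {x : ℝ} (n : ℕ) (hx : (n : ℝ) ≤ x) : (2 : ℝ) ^ (-x) ≤ 1 / 2 ^ n := by
  have h1 : (2 : ℝ) ^ (-x) ≤ (2 : ℝ) ^ (-(n : ℝ)) :=
    Real.rpow_le_rpow_of_exponent_le one_le_two (neg_le_neg hx)
  have h2 : (2 : ℝ) ^ (-(n : ℝ)) = 1 / 2 ^ n := by
    rw [Real.rpow_neg zero_le_two, Real.rpow_natCast, one_div]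
  rwa [h2] at h1

theorem prx : PrxStmt := by
  intro al hal
  have hlam : 0 < lam al := by
    unfold lam
    positivity
  have hc : 0 < 1 / al - lam al / 2 := by
    have h1 : lam al / 2 < 1 / al := by
      unfold lam
      rw [div_div, div_lt_div_iff₀ (by positivity) hal]
      nlinarith
    linarith
  obtain ⟨m, hm⟩ := exists_nat_ge (max (2 / lam al) (max (5 / (1 / al - lam al / 2)) (6 * al)))
  have h1 : 2 / lam al ≤ m := (le_max_left _ _).trans hm
  have h2 : 5 / (1 / al - lam al / 2) ≤ m :=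
    ((le_max_left _ _).trans (le_max_right _ _)).trans hm
  have h3 : 6 * al ≤ m := ((le_max_right _ _).trans (le_max_right _ _)).trans hm
  refine ⟨m, hal, ?_, ?_, ?_⟩
  · rw [div_le_iff₀ hlam] at h1
    linarith
  · rw [div_le_iff₀ hc] at h2
    have h4 := two_pow_neg_le 5 (x := m * (1 / al - lam al / 2)) (by push_cast; exact h2)
    refine h4.trans ?_
    norm_num
  · have h5 : ((6 : ℕ) : ℝ) ≤ m / al := by
      rw [le_div_iff₀ hal]
      push_cast
      exact h3
    have h6 := two_pow_neg_le 6 h5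
    have h7 : (1 : ℝ) / 2 ^ 6 = 1 / 64 := by norm_num
    rw [h7] at h6
    linarith

end Pool.Agent.BEL.H39
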